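import Pool.Agent.Helper62.KP.Bal3

/-!
Closed Riemannian manifolds of nonnegative sectional curvature whose flat tangent planes are,
essentially, based on a closed set, for example on a closed submanifold of any dimension: either the
metric can be deformed to one of positive sectional curvature, or there is a closed set of flat
points, no relatively open part of which has zero two-dimensional Hausdorff measure, the second
fundamental form of which is balanced over flat planes tangent to it, at each of its points.
-/

open Bundle Manifold ContDiff MeasureTheory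
open scoped Topology

set_option autoImplicit false
set_option synthInstance.maxHeartbeats 400000
set_option maxHeartbeats 4000000

noncomputable section

namespace Pool.Agent.Results.MP_4e0d62_gt.BalancedFlats

open Pool.Agent.H821R2 Pool.Agent.H821R3 Pool.Agent.H893R5.HO Pool.Agent.Helper62.KP

section defs

variable {E : Type*} [NormedAddCommGroup E] [NormedSpace ℝ E] {H : Type*} [TopologicalSpace H]
  {I : ModelWithCorners ℝ E H} {M : Type*} [TopologicalSpace M] [ChartedSpace H M]

/-- The plane spanned by the tangent vectors `u`, `v` at `x` is transversal to the zero set of the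
function `y`: `x` is a zero of `y` and the differential of `y` does not vanish on the plane. -/
def Transversal (y : M → ℝ) (x : M) (u v : TangentSpace I x) : Prop :=
  y x = 0 ∧ ¬ (mvfderiv I y x u = 0 ∧ mvfderiv I y x v = 0)

/-- The vector `ξ` is tangent to the set `T` at `x`: the differentials of all smooth functions
vanishing on `T` vanish on `ξ`. -/
def Tangent (T : Set M) (x : M) (ξ : TangentSpace I x) : Prop :=
  ∀ y : M → ℝ, ContMDiff I 𝓘(ℝ, ℝ) ∞ y → (∀ p ∈ T, y p = 0) → mvfderiv I y x ξ = 0

variable [IsManifold I ∞ M]

/-- The metric can be deformed to positive sectional curvature: for some smooth symmetric tensor `h`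
the metrics `g + s h` have positive sectional curvature for all small `s > 0`. -/
def Improvable (g : Metric I M) : Prop :=
  ∃ h : Bilin I M, SymTensor h ∧ ∃ s₀ : ℝ, 0 < s₀ ∧ ∀ s : ℝ, 0 < s → s < s₀ → ∃ g' : Metric I M,
    (∀ (y : M) (a b : TangentSpace I y), g'.inner y a b = g.inner y a b + s * h y a b) ∧
    HasPositiveSectionalCurvature g'

/-- The flat plane spanned by the orthonormal pair `(u, v)` at `x` is moved by a Killing field: for
some Killing field `X` the number `⟨∇_u X, v⟩` is not zero. -/
def Moved (g : Metric I M) (cov : Conn I M) (x : M) (u v : TangentSpace I x) : Prop :=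
  ∃ X, IsKilling g cov X ∧ g.inner x (cov X x u) v ≠ 0

/-- `G` is the gradient field of the smooth function `y`. -/
def IsGradient (g : Metric I M) (y : M → ℝ) (G : Π x : M, TangentSpace I x) : Prop :=
  ContMDiff I I.tangent ∞ (fun x => (⟨x, G x⟩ : TangentBundle I M)) ∧
    ∀ (x : M) (v : TangentSpace I x), g.inner x (G x) v = mvfderiv I y x v

/-- The metric has nonnegative sectional curvature. -/
def NonnegCurvature (g : Metric I M) (R : CurvField I M) : Prop :=
  ∀ (x : M) (u v : TangentSpace I x), LinearIndependent ℝ ![u, v] →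
    0 ≤ sectionalCurvature g R x u v

/-- Every flat plane which is not based on the set `A` is transversal to the zero set of some
function of the sequence `y` or moved by a Killing field. -/
def ControlledOff (g : Metric I M) (cov : Conn I M) (R : CurvField I M) (y : ℕ → M → ℝ)
    (A : Set M) : Prop :=
  ∀ x ∉ A, ∀ u v : TangentSpace I x, OrthoPair g x u v → sec g R x u v = 0 →
    (∃ i, Transversal (y i) x u v) ∨ Moved g cov x u v

/-- The mixed discriminant `B(u,u) C(v,v) + B(v,v) C(u,u) - 2 B(u,v) C(u,v)` of the Hessians
`B = ⟨∇ G, ·⟩`, `C = ⟨∇ K, ·⟩` of two functions with the gradients `G`, `K`, on the plane spanned by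
`u` and `v`. -/
def mixedDisc (g : Metric I M) (cov : Conn I M) (G K : Π x : M, TangentSpace I x) (x : M)
    (u v : TangentSpace I x) : ℝ :=
  g.inner x (cov G x u) u * g.inner x (cov K x v) v +
    g.inner x (cov G x v) v * g.inner x (cov K x u) u -
    2 * (g.inner x (cov G x u) v * g.inner x (cov K x u) v)

/-- The second fundamental form of the set `T` at `x` is balanced over flat planes tangent to `T`:
there are finitely many planes of curvature zero at `x`, tangent to `T` and not moved by Killing
fields, with positive weights of sum one, such that the weighted sum of the mixed discriminants of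
the Hessian of `y` and the Hessian of `z` vanishes for every smooth function `y` vanishing on `T` and
every smooth function `z`. -/
def Balanced (g : Metric I M) (cov : Conn I M) (R : CurvField I M) (T : Set M) (x : M) : Prop :=
  ∃ (N : ℕ) (w : Fin N → ℝ) (u v : Fin N → TangentSpace I x),
    (∀ i, 0 < w i) ∧ ∑ i, w i = 1 ∧
    (∀ i, OrthoPair g x (u i) (v i) ∧ sec g R x (u i) (v i) = 0 ∧ Tangent T x (u i) ∧
      Tangent T x (v i) ∧ ¬ Moved g cov x (u i) (v i)) ∧
    ∀ (y z : M → ℝ) (G K : Π x : M, TangentSpace I x), ContMDiff I 𝓘(ℝ, ℝ) ∞ y →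
      ContMDiff I 𝓘(ℝ, ℝ) ∞ z → (∀ p ∈ T, y p = 0) → IsGradient g y G → IsGradient g z K →
        ∑ i, w i * mixedDisc g cov G K x (u i) (v i) = 0

end defs

/-- The subset `S` of the `n`-manifold `M` has zero two-dimensional Hausdorff measure: so has its
image in `ℝⁿ` under each of the charts. -/
def TwoNull (n : ℕ) {M : Type*} [TopologicalSpace M] [ChartedSpace (EuclideanSpace ℝ (Fin n)) M]
    (S : Set M) : Prop :=
  ∀ p : M, μH[2] (chartAt (EuclideanSpace ℝ (Fin n)) p ''
    (S ∩ (chartAt (EuclideanSpace ℝ (Fin n)) p).source)) = 0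

/-- Let `g` be a metric of nonnegative sectional curvature on a closed manifold `M` of dimension
`n ≥ 2`, let `F` be a closed set, `S` a set of zero two-dimensional Hausdorff measure and `y` a
sequence of smooth functions, such that every flat plane which is not based on `F` or `S` is
transversal to the zero set of some function of the sequence or moved by a Killing field. Then `g`
can be deformed to positive sectional curvature, or `F` contains a nonempty closed set `T`, no
nonempty relatively open subset of which has zero two-dimensional Hausdorff measure, such that the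
second fundamental form of `T` is balanced over flat planes tangent to `T` at every point of `T`. -/
theorem result {n : ℕ} (hn : 2 ≤ n) {M : Type*} [TopologicalSpace M]
    [ChartedSpace (EuclideanSpace ℝ (Fin n)) M] [IsManifold (𝓡 n) ∞ M] [T2Space M]
    [CompactSpace M] (g : Metric (𝓡 n) M) (cov : Conn (𝓡 n) M) (R : CurvField (𝓡 n) M)
    (hc : IsLeviCivita g cov) (hR : IsRiemannTensor cov R)
    (hnn : NonnegCurvature g R) (F S : Set M) (y : ℕ → M → ℝ)
    (hy : ∀ i, ContMDiff (𝓡 n) 𝓘(ℝ, ℝ) ∞ (y i)) (hF : IsClosed F) (hS : TwoNull n S)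
    (hflat : ControlledOff g cov R y (F ∪ S)) :
    Improvable g ∨ ∃ T ⊆ F, T.Nonempty ∧ IsClosed T ∧
      (∀ O : Set M, IsOpen O → (T ∩ O).Nonempty → ¬ TwoNull n (T ∩ O)) ∧
      ∀ x ∈ T, Balanced g cov R T x := by
  have : Nonempty (Fin n) := ⟨⟨0, by omega⟩⟩
  have : Nontrivial (EuclideanSpace ℝ (Fin n)) := inferInstance
  have hnn' : ∀ (x : M) (u v : TangentSpace (𝓡 n) x), OrthoPair g x u v → 0 ≤ sec g R x u v := by
    intro x u v huv
    have := hnn x u v (ortho_li huv)
    unfold sectionalCurvature at this
    rw [huv.1, huv.2.1, huv.2.2] at this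
    simpa [sec] using this
  by_cases hdir : ∃ h : Bilin (𝓡 n) M, SymTensor h ∧ ∀ z ∈ FP g R, 0 < LP h cov z
  · left
    obtain ⟨h, hh, hpos⟩ := hdir
    exact ⟨h, hh, deform hh hc hR hnn' fun x u v huv h0 => hpos ⟨x, (u, v)⟩ ⟨huv, h0⟩⟩
  · right
    push Not at hdir
    obtain ⟨T, hTF, hne, hcl, hnul, hT⟩ := balanced_alt hc hR hnn hdir hF hS hy (by
        intro x u v hxF hxS huv h0
        rcases hflat x (by rintro (h | h); exacts [hxF h, hxS h]) u v huv h0 with
          ⟨i, hi⟩ | ⟨X, hX, hX'⟩
        · exact Or.inl ⟨i, hi.1, hi.2⟩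
        · exact Or.inr ⟨X, hX, hX'⟩)
    refine ⟨T, hTF, hne, hcl, hnul, fun x hx => ?_⟩
    obtain ⟨N, w, u, v, hw0, hw1, hp, hsum⟩ := hT x hx
    refine ⟨N, w, u, v, hw0, hw1, fun i => ?_, ?_⟩
    · obtain ⟨h1, h2, h3, h4, h5⟩ := hp i
      refine ⟨h1, h2, h3, h4, ?_⟩
      rintro ⟨X, hX, hX'⟩
      exact hX' (h5 X hX)
    · intro q z G K hq hz hqT hG hK
      exact hsum q z G K hq hz hqT ⟨hG.1, hG.2⟩ ⟨hK.1, hK.2⟩

end Pool.Agent.Results.MP_4e0d62_gt.BalancedFlats
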