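import Pool.Agent.Helper62.KP.Alt7

/-!
An alternative for closed Riemannian manifolds of nonnegative sectional curvature: either some
linear variation of the metric has positive curvature to first order at all flat planes, or there is
a probability measure on the flat planes which annihilates the first variation of the curvature in
all directions.
-/

open Bundle Manifold ContDiff MeasureTheory
open scoped Topology

set_option autoImplicit false
set_option synthInstance.maxHeartbeats 400000
set_option maxHeartbeats 4000000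

noncomputable section

namespace Pool.Agent.Results.MP_4e0d62_gt.FlatMeasure

open Pool.Agent.H821R2 Pool.Agent.H821R3 Pool.Agent.H893R5.HO Pool.Agent.Helper62.KP

section defs

variable {E : Type*} [NormedAddCommGroup E] [NormedSpace ℝ E] {H : Type*} [TopologicalSpace H]
  {I : ModelWithCorners ℝ E H} {M : Type*} [TopologicalSpace M] [ChartedSpace H M]
  [IsManifold I ∞ M]

/-- `z = (x, u, v)` is an orthonormal pair of tangent vectors at `x` spanning a plane of curvature
zero. -/
def FlatPair (g : Metric I M) (R : CurvField I M) (z : Prs I M) : Prop :=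
  OrthoPair g z.1 z.2.1 z.2.2 ∧ sec g R z.1 z.2.1 z.2.2 = 0

/-- The smooth symmetric tensor `h` increases the curvature of all flat planes to first order, and
the metrics `g + s h` have positive sectional curvature for all small `s > 0`. -/
def PositiveDirection (g : Metric I M) (R : CurvField I M) (h : Bilin I M) : Prop :=
  SymTensor h ∧
  (∀ z, FlatPair g R z → ∃ l, 0 < l ∧ HasRate g h z.1 z.2.1 z.2.2 l) ∧
  ∃ s₀ : ℝ, 0 < s₀ ∧ ∀ s : ℝ, 0 < s → s < s₀ → ∃ g' : Metric I M,
    (∀ (y : M) (a b : TangentSpace I y), g'.inner y a b = g.inner y a b + s * h y a b) ∧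
    HasPositiveSectionalCurvature g'

/-- `G` is the gradient field of the smooth function `y`. -/
def IsGradient (g : Metric I M) (y : M → ℝ) (G : Π x : M, TangentSpace I x) : Prop :=
  ContMDiff I I.tangent ∞ (fun x => (⟨x, G x⟩ : TangentBundle I M)) ∧
    ∀ (x : M) (v : TangentSpace I x), g.inner x (G x) v = mvfderiv I y x v

/-- `μ` is a probability measure on the flat pairs which annihilates all first variations of the
curvature, with some further properties of such measures: almost every plane of `μ` based at a zero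
of a smooth function is tangent to its zero set; the planes in the support of `μ` are isotropic for
the covariant derivative of each Killing field; and, if a smooth function `y` attains at the foot
point of a plane in the support of `μ` its maximum over all such foot points, then at this point
there is a plane in the support of `μ` on which `dy` vanishes and the Hessian of `y` has nonpositive
trace. -/
structure Stationary (g : Metric I M) (cov : Conn I M) (R : CurvField I M)
    (μ : Measure (Prs I M)) : Prop where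
  prob : IsProbabilityMeasure μ
  flat : ∀ᵐ z ∂μ, FlatPair g R z
  stationary : ∀ h : Bilin I M, SymTensor h → ∃ l : Prs I M → ℝ,
    (∀ z, FlatPair g R z → HasRate g h z.1 z.2.1 z.2.2 (l z)) ∧ Integrable l μ ∧
      ∫ z, l z ∂μ = 0
  tangent : ∀ y : M → ℝ, ContMDiff I 𝓘(ℝ, ℝ) ∞ y →
    ∀ᵐ z ∂μ, y z.1 = 0 → mvfderiv I y z.1 z.2.1 = 0 ∧ mvfderiv I y z.1 z.2.2 = 0
  killing : ∀ X : Π x : M, TangentSpace I x, IsKilling g cov X →
    ∀ z ∈ μ.support, g.inner z.1 (cov X z.1 z.2.1) z.2.2 = 0
  barrier : ∀ y : M → ℝ, ContMDiff I 𝓘(ℝ, ℝ) ∞ y → ∀ G, IsGradient g y G →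
    ∀ z₀ ∈ μ.support, (∀ z ∈ μ.support, y z.1 ≤ y z₀.1) →
      ∃ z ∈ μ.support, z.1 = z₀.1 ∧ mvfderiv I y z.1 z.2.1 = 0 ∧ mvfderiv I y z.1 z.2.2 = 0 ∧
        g.inner z.1 (cov G z.1 z.2.1) z.2.1 + g.inner z.1 (cov G z.1 z.2.2) z.2.2 ≤ 0

end defs

/-- The subset `S` of the `n`-manifold `M` has zero two-dimensional Hausdorff measure: so has its
image in `ℝⁿ` under each of the charts. -/
def TwoNull (n : ℕ) {M : Type*} [TopologicalSpace M] [ChartedSpace (EuclideanSpace ℝ (Fin n)) M]
    (S : Set M) : Prop :=
  ∀ p : M, μH[2] (chartAt (EuclideanSpace ℝ (Fin n)) p ''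
    (S ∩ (chartAt (EuclideanSpace ℝ (Fin n)) p).source)) = 0

/-- The foot points of `μ` do not charge sets of zero two-dimensional Hausdorff measure. -/
def Diffuse (n : ℕ) {M : Type*} [TopologicalSpace M] [ChartedSpace (EuclideanSpace ℝ (Fin n)) M]
    [IsManifold (𝓡 n) ∞ M] (μ : Measure (Prs (𝓡 n) M)) : Prop :=
  ∀ S : Set M, TwoNull n S → μ {z | z.1 ∈ S} = 0

/-- A metric of nonnegative sectional curvature on a closed manifold has no direction of first order
deformation to positive curvature if and only if there is a stationary probability measure on its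
flat planes, not charging sets of zero two-dimensional Hausdorff measure. -/
theorem result {n : ℕ} (hn : 1 ≤ n) {M : Type*} [TopologicalSpace M]
    [ChartedSpace (EuclideanSpace ℝ (Fin n)) M] [IsManifold (𝓡 n) ∞ M] [T2Space M]
    [CompactSpace M] (g : Metric (𝓡 n) M) (cov : Conn (𝓡 n) M) (R : CurvField (𝓡 n) M)
    (hc : IsLeviCivita g cov) (hR : IsRiemannTensor cov R)
    (hnn : ∀ (x : M) (u v : TangentSpace (𝓡 n) x), LinearIndependent ℝ ![u, v] →
      0 ≤ sectionalCurvature g R x u v) :
    (¬ ∃ h, PositiveDirection g R h) ↔ ∃ μ, Stationary g cov R μ ∧ Diffuse n μ := by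
  have : Nonempty (Fin n) := ⟨⟨0, by omega⟩⟩
  have : Nontrivial (EuclideanSpace ℝ (Fin n)) := inferInstance
  have hnn' : ∀ (x : M) (u v : TangentSpace (𝓡 n) x), OrthoPair g x u v → 0 ≤ sec g R x u v := by
    intro x u v huv
    have := hnn x u v (ortho_li huv)
    unfold sectionalCurvature at this
    rw [huv.1, huv.2.1, huv.2.2] at this
    simpa [sec] using this
  -- the two alternatives exclude each other
  have hexcl : ¬ ((∃ h, PositiveDirection g R h) ∧ ∃ μ, Stationary g cov R μ ∧ Diffuse n μ) := by
    rintro ⟨⟨h, hh, hpos, -⟩, μ, hμ, -⟩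
    have := hμ.prob
    obtain ⟨l, hl, hli, hl0⟩ := hμ.stationary h hh
    have hlpos : ∀ᵐ z ∂μ, 0 < l z := by
      filter_upwards [hμ.flat] with z hz
      obtain ⟨l', hl', hr⟩ := hpos z hz
      rw [(hl z hz).unique hr]
      exact hl'
    have h1 : 0 ≤ᵐ[μ] l := by
      filter_upwards [hlpos] with z hz
      exact hz.le
    rw [integral_eq_zero_iff_of_nonneg_ae h1 hli] at hl0
    have hfalse : ∀ᵐ _z ∂μ, False := by
      filter_upwards [hlpos, hl0] with z h2 h3
      rw [h3] at h2
      exact lt_irrefl _ h2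
    rw [ae_iff] at hfalse
    simp only [not_false_eq_true, Set.ofPred_true] at hfalse
    rw [measure_univ] at hfalse
    exact one_ne_zero hfalse
  by_cases hdir : ∃ h : Bilin (𝓡 n) M, SymTensor h ∧ ∀ z ∈ FP g R, 0 < LP h cov z
  · obtain ⟨h, hh, hpos⟩ := hdir
    have h1 : ∃ h, PositiveDirection g R h := by
      refine ⟨h, hh, fun z hz => ⟨LP h cov z, hpos z hz, hasRate_LV hh hc hR hz.1⟩, ?_⟩
      exact deform hh hc hR hnn' fun x u v huv h0 => hpos ⟨x, (u, v)⟩ ⟨huv, h0⟩
    exact ⟨fun h3 => absurd h1 h3, fun h2 => absurd ⟨h1, h2⟩ hexcl⟩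
  · push Not at hdir
    obtain ⟨μ, hμ, hs, hann⟩ := exists_mu hc hR hdir
    have hT : ∀ φ : M → ℝ, Sm (𝓡 n) φ → Integrable (TH cov φ) μ ∧ ∫ z, TH cov φ z ∂μ = 0 :=
      fun φ hφ => int_TH hc hR hs hann hφ
    have h2 : ∃ μ, Stationary g cov R μ ∧ Diffuse n μ := by
      refine ⟨μ, ⟨hμ, hs, ?_, ?_, ?_, ?_⟩, ?_⟩
      · intro h hh
        exact ⟨LP h cov, fun z hz => hasRate_LV hh hc hR hz.1, hann h hh⟩
      · intro y hy
        exact ae_tangent hc hR hs hT hy
      · intro X hX
        exact supp_kill hc hR hnn hs hann hX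
      · intro y hy G hG z₀ hz₀ hmax
        obtain ⟨z, hz, h3, h4, h5, h6⟩ := barrier hc hR hs hT hy hz₀ hmax
        refine ⟨z, hz, h3, h4, h5, ?_⟩
        have hG' : IsGrad g y G := ⟨hG.1, hG.2⟩
        rw [hes_eq hc hG', hes_eq hc hG']
        exact h6
      · intro S hS
        obtain ⟨N, D, hinj⟩ := exists_frame (𝓡 n) M
        exact null_all D hc hs hinj hT (null_image D (by norm_num) hS)
    exact ⟨fun _ => h2, fun _ h1 => hexcl ⟨h1, h2⟩⟩

end Pool.Agent.Results.MP_4e0d62_gt.FlatMeasure
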