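import Pool.Agent.Helper62.KP.Surf5

/-!
Closed Riemannian manifolds of nonnegative sectional curvature whose flat tangent planes are,
essentially, based on a closed surface: either the metric can be deformed to one of positive
sectional curvature, or some components of the surface are totally geodesic and flat.
-/

open Bundle Manifold ContDiff MeasureTheory
open scoped Topology

set_option autoImplicit false
set_option synthInstance.maxHeartbeats 400000
set_option maxHeartbeats 4000000

noncomputable section

namespace Pool.Agent.Results.MP_4e0d62_gt.FlatSurface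

open Pool.Agent.H821R2 Pool.Agent.H821R3 Pool.Agent.H893R5.HO Pool.Agent.Helper62.KP

section defs

variable {E : Type*} [NormedAddCommGroup E] [NormedSpace ℝ E] {H : Type*} [TopologicalSpace H]
  {I : ModelWithCorners ℝ E H} {M : Type*} [TopologicalSpace M] [ChartedSpace H M]

/-- The plane spanned by the tangent vectors `u`, `v` at `x` is transversal to the zero set of the
function `y`: `x` is a zero of `y` and the differential of `y` does not vanish on the plane. -/
def Transversal (y : M → ℝ) (x : M) (u v : TangentSpace I x) : Prop :=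
  y x = 0 ∧ ¬ (mvfderiv I y x u = 0 ∧ mvfderiv I y x v = 0)

/-- The vector `ξ` is tangent to the set `F` at `x`: the differentials of all smooth functions
vanishing on `F` vanish on `ξ`. -/
def Tangent (F : Set M) (x : M) (ξ : TangentSpace I x) : Prop :=
  ∀ y : M → ℝ, ContMDiff I 𝓘(ℝ, ℝ) ∞ y → (∀ p ∈ F, y p = 0) → mvfderiv I y x ξ = 0

variable [IsManifold I ∞ M]

/-- The metric can be deformed to positive sectional curvature: for some smooth symmetric tensor `h`
the metrics `g + s h` have positive sectional curvature for all small `s > 0`. -/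
def Improvable (g : Metric I M) : Prop :=
  ∃ h : Bilin I M, SymTensor h ∧ ∃ s₀ : ℝ, 0 < s₀ ∧ ∀ s : ℝ, 0 < s → s < s₀ → ∃ g' : Metric I M,
    (∀ (y : M) (a b : TangentSpace I y), g'.inner y a b = g.inner y a b + s * h y a b) ∧
    HasPositiveSectionalCurvature g'

/-- The flat plane spanned by the orthonormal pair `(u, v)` at `x` is moved by a Killing field: for
some Killing field `X` the number `⟨∇_u X, v⟩` is not zero. -/
def Moved (g : Metric I M) (cov : Conn I M) (x : M) (u v : TangentSpace I x) : Prop :=
  ∃ X, IsKilling g cov X ∧ g.inner x (cov X x u) v ≠ 0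

/-- `G` is the gradient field of the smooth function `y`. -/
def IsGradient (g : Metric I M) (y : M → ℝ) (G : Π x : M, TangentSpace I x) : Prop :=
  ContMDiff I I.tangent ∞ (fun x => (⟨x, G x⟩ : TangentBundle I M)) ∧
    ∀ (x : M) (v : TangentSpace I x), g.inner x (G x) v = mvfderiv I y x v

/-- The tangent space of the surface `F` at `x` is a plane of curvature zero, spanned by an
orthonormal pair `(u, v)`, and it is not moved by Killing fields; and `F` is totally geodesic at
`x`: the Hessians of all smooth functions vanishing on `F` vanish on this plane. -/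
def FlatGeodesicAt (g : Metric I M) (cov : Conn I M) (R : CurvField I M) (F : Set M) (x : M) :
    Prop :=
  ∃ u v : TangentSpace I x, OrthoPair g x u v ∧ sec g R x u v = 0 ∧
    (∀ ξ, Tangent F x ξ ↔ ∃ a b : ℝ, ξ = a • u + b • v) ∧ ¬ Moved g cov x u v ∧
    ∀ (y : M → ℝ) (G : Π x : M, TangentSpace I x), ContMDiff I 𝓘(ℝ, ℝ) ∞ y →
      (∀ p ∈ F, y p = 0) → IsGradient g y G →
        g.inner x (cov G x u) u = 0 ∧ g.inner x (cov G x u) v = 0 ∧ g.inner x (cov G x v) v = 0

/-- The metric has nonnegative sectional curvature. -/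
def NonnegCurvature (g : Metric I M) (R : CurvField I M) : Prop :=
  ∀ (x : M) (u v : TangentSpace I x), LinearIndependent ℝ ![u, v] →
    0 ≤ sectionalCurvature g R x u v

/-- Every flat plane which is not based on the set `A` is transversal to the zero set of some
function of the sequence `y` or moved by a Killing field. -/
def ControlledOff (g : Metric I M) (cov : Conn I M) (R : CurvField I M) (y : ℕ → M → ℝ)
    (A : Set M) : Prop :=
  ∀ x ∉ A, ∀ u v : TangentSpace I x, OrthoPair g x u v → sec g R x u v = 0 →
    (∃ i, Transversal (y i) x u v) ∨ Moved g cov x u v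

/-- There is a nonempty open and closed subset of `F` on which `F` is totally geodesic with flat
tangent planes. -/
def HasFlatPart (g : Metric I M) (cov : Conn I M) (R : CurvField I M) (F : Set M) : Prop :=
  ∃ T ⊆ F, T.Nonempty ∧ IsClosed T ∧ (∃ O, IsOpen O ∧ T = F ∩ O) ∧
    ∀ x ∈ T, FlatGeodesicAt g cov R F x

end defs

/-- The subset `S` of the `n`-manifold `M` has zero two-dimensional Hausdorff measure: so has its
image in `ℝⁿ` under each of the charts. -/
def TwoNull (n : ℕ) {M : Type*} [TopologicalSpace M] [ChartedSpace (EuclideanSpace ℝ (Fin n)) M]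
    (S : Set M) : Prop :=
  ∀ p : M, μH[2] (chartAt (EuclideanSpace ℝ (Fin n)) p ''
    (S ∩ (chartAt (EuclideanSpace ℝ (Fin n)) p).source)) = 0

/-- `F` is a closed embedded surface in the `n`-manifold `M` (possibly empty or disconnected): a
closed set which near each of its points is given, in some chart of the smooth structure, by the
vanishing of all but the first two coordinates. -/
def ClosedSurface (n : ℕ) {M : Type*} [TopologicalSpace M]
    [ChartedSpace (EuclideanSpace ℝ (Fin n)) M] (F : Set M) : Prop :=
  IsClosed F ∧ ∀ p ∈ F, ∃ e ∈ IsManifold.maximalAtlas (𝓡 n) ∞ M, p ∈ e.source ∧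
    ∀ x ∈ e.source, x ∈ F ↔ ∀ i : Fin n, 2 ≤ (i : ℕ) → e x i = 0

/-- the coordinate plane -/
def planeW (n : ℕ) : Submodule ℝ (EuclideanSpace ℝ (Fin n)) where
  carrier := {z | ∀ i : Fin n, 2 ≤ (i : ℕ) → z i = 0}
  add_mem' := by
    intro a b ha hb i hi
    change a i + b i = 0
    rw [ha i hi, hb i hi, add_zero]
  zero_mem' := fun i _ => rfl
  smul_mem' := by
    intro c a ha i hi
    change c * a i = 0
    rw [ha i hi, mul_zero]

theorem finrank_planeW {n : ℕ} (hn : 2 ≤ n) : Module.finrank ℝ (planeW n) ≤ 2 := by
  let f : planeW n →ₗ[ℝ] (Fin 2 → ℝ) :=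
    { toFun := fun z => ![z.1 ⟨0, by omega⟩, z.1 ⟨1, by omega⟩]
      map_add' := by
        intro a b
        ext j
        fin_cases j <;> rfl
      map_smul' := by
        intro c a
        ext j
        fin_cases j <;> rfl }
  have hinj : Function.Injective f := by
    rw [← LinearMap.ker_eq_bot, LinearMap.ker_eq_bot']
    rintro ⟨z, hz⟩ h0
    have h1 : z ⟨0, by omega⟩ = 0 := congrFun h0 0
    have h2 : z ⟨1, by omega⟩ = 0 := congrFun h0 1
    apply Subtype.ext
    ext ⟨i, hi⟩
    rcases Nat.lt_or_ge i 2 with h | h
    · interval_cases i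
      · exact h1
      · exact h2
    · exact hz ⟨i, hi⟩ h
  have := LinearMap.finrank_le_finrank_of_injective hinj
  simpa using this

/-- Let `g` be a metric of nonnegative sectional curvature on a closed manifold `M` of dimension
`n ≥ 2`, let `F` be a closed embedded surface, `S` a set of zero two-dimensional Hausdorff measure
and `y` a sequence of smooth functions, such that every flat plane which is not based on `F` or `S`
is transversal to the zero set of some function of the sequence or moved by a Killing field. Then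
`g` can be deformed to positive sectional curvature, or there is a nonempty open and closed subset
of `F` on which `F` is totally geodesic with flat tangent planes. -/
theorem result {n : ℕ} (hn : 2 ≤ n) {M : Type*} [TopologicalSpace M]
    [ChartedSpace (EuclideanSpace ℝ (Fin n)) M] [IsManifold (𝓡 n) ∞ M] [T2Space M]
    [CompactSpace M] (g : Metric (𝓡 n) M) (cov : Conn (𝓡 n) M) (R : CurvField (𝓡 n) M)
    (hc : IsLeviCivita g cov) (hR : IsRiemannTensor cov R)
    (hnn : NonnegCurvature g R) (F S : Set M) (y : ℕ → M → ℝ)
    (hy : ∀ i, ContMDiff (𝓡 n) 𝓘(ℝ, ℝ) ∞ (y i)) (hF : ClosedSurface n F) (hS : TwoNull n S)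
    (hflat : ControlledOff g cov R y (F ∪ S)) : Improvable g ∨ HasFlatPart g cov R F := by
  have : Nonempty (Fin n) := ⟨⟨0, by omega⟩⟩
  have : Nontrivial (EuclideanSpace ℝ (Fin n)) := inferInstance
  have hnn' : ∀ (x : M) (u v : TangentSpace (𝓡 n) x), OrthoPair g x u v → 0 ≤ sec g R x u v := by
    intro x u v huv
    have := hnn x u v (ortho_li huv)
    unfold sectionalCurvature at this
    rw [huv.1, huv.2.1, huv.2.2] at this
    simpa [sec] using this
  by_cases hdir : ∃ h : Bilin (𝓡 n) M, SymTensor h ∧ ∀ z ∈ FP g R, 0 < LP h cov z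
  · left
    obtain ⟨h, hh, hpos⟩ := hdir
    exact ⟨h, hh, deform hh hc hR hnn' fun x u v huv h0 => hpos ⟨x, (u, v)⟩ ⟨huv, h0⟩⟩
  · right
    push Not at hdir
    obtain ⟨T, hTF, hne, hcl, hop, hT⟩ := surface_alt hc hR hnn hdir hF.1 (finrank_planeW hn)
      hF.2 hS hy (by
        intro x u v hxF hxS huv h0
        rcases hflat x (by rintro (h | h); exacts [hxF h, hxS h]) u v huv h0 with
          ⟨i, hi⟩ | ⟨X, hX, hX'⟩
        · exact Or.inl ⟨i, hi.1, hi.2⟩
        · exact Or.inr ⟨X, hX, hX'⟩)
    refine ⟨T, hTF, hne, hcl, hop, fun x hx => ?_⟩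
    obtain ⟨u, v, h1, h2, h3, h4, h5, h6, h7⟩ := hT x hx
    refine ⟨u, v, h1, h2, fun ξ => ⟨h5 ξ, ?_⟩, ?_, ?_⟩
    · rintro ⟨a, b, rfl⟩ q hq hqF
      rw [map_add, map_smul, map_smul, h3 q hq hqF, h4 q hq hqF, smul_zero, smul_zero, add_zero]
    · rintro ⟨X, hX, hX'⟩
      exact hX' (h7 X hX)
    · intro q G hq hqF hG
      exact h6 q G hq hqF ⟨hG.1, hG.2⟩

end Pool.Agent.Results.MP_4e0d62_gt.FlatSurface
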