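import Pool.Agent.Helper62.KP.ConfAlt

/-!
A closed Riemannian manifold with nonnegative sectional curvature whose flat tangent planes are, up
to a set of foot points of zero two-dimensional Hausdorff measure, transversal to countably many
zero sets of smooth functions, is conformal to one with positive sectional curvature.
-/

open Bundle Manifold ContDiff MeasureTheory
open scoped Topology

set_option autoImplicit false
set_option synthInstance.maxHeartbeats 400000
set_option maxHeartbeats 4000000

noncomputable section

namespace Pool.Agent.Results.MP_4e0d62_gt.TransverseFlats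

open Pool.Agent.H821R2 Pool.Agent.H821R3 Pool.Agent.H893R5.HO Pool.Agent.Helper62.KP

section defs

variable {E : Type*} [NormedAddCommGroup E] [NormedSpace ℝ E] {H : Type*} [TopologicalSpace H]
  {I : ModelWithCorners ℝ E H} {M : Type*} [TopologicalSpace M] [ChartedSpace H M]

/-- The plane spanned by the tangent vectors `u`, `v` at `x` is transversal to the zero set of the
function `y`: `x` is a zero of `y` and the differential of `y` does not vanish on the plane. -/
def Transversal (y : M → ℝ) (x : M) (u v : TangentSpace I x) : Prop :=
  y x = 0 ∧ ¬ (mvfderiv I y x u = 0 ∧ mvfderiv I y x v = 0)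

variable [IsManifold I ∞ M]

/-- At the point `x` the metric `g` has nonnegative sectional curvature, and each tangent plane at
`x` of curvature zero is transversal to the zero set of some function of the sequence `y`. -/
def GoodAt (g : Metric I M) (y : ℕ → M → ℝ) (x : M) : Prop :=
  ∃ (cov : Conn I M) (R : CurvField I M), IsLeviCivita g cov ∧ IsRiemannTensor cov R ∧
    ∀ u v : TangentSpace I x, LinearIndependent ℝ ![u, v] →
      0 < sectionalCurvature g R x u v ∨
        (sectionalCurvature g R x u v = 0 ∧ ∃ i, Transversal (y i) x u v)

/-- The metric `g'` is conformal to `g`: `g' = e^{2f} g` with a smooth function `f`. -/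
def IsConformal (g g' : Metric I M) : Prop :=
  ∃ f : M → ℝ, ContMDiff I 𝓘(ℝ, ℝ) ∞ f ∧
    ∀ (x : M) (u v : TangentSpace I x), g'.inner x u v = Real.exp (2 * f x) * g.inner x u v

end defs

/-- The subset `S` of the `n`-manifold `M` has zero two-dimensional Hausdorff measure: so has its
image in `ℝⁿ` under each of the charts. -/
def TwoNull (n : ℕ) {M : Type*} [TopologicalSpace M] [ChartedSpace (EuclideanSpace ℝ (Fin n)) M]
    (S : Set M) : Prop :=
  ∀ p : M, μH[2] (chartAt (EuclideanSpace ℝ (Fin n)) p ''
    (S ∩ (chartAt (EuclideanSpace ℝ (Fin n)) p).source)) = 0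

/-- Let `M` be a closed manifold of dimension `n ≥ 2`, `g` a Riemannian metric, `y` a sequence of
smooth functions and `S` a set of zero two-dimensional Hausdorff measure. If at each point outside
`S` the sectional curvature is nonnegative and each flat tangent plane is transversal to the zero
set of one of the functions, then some metric conformal to `g` has positive sectional curvature. -/
theorem result {n : ℕ} (hn : 2 ≤ n) {M : Type*} [TopologicalSpace M]
    [ChartedSpace (EuclideanSpace ℝ (Fin n)) M] [IsManifold (𝓡 n) ∞ M] [T2Space M]
    [CompactSpace M] (g : Metric (𝓡 n) M) (y : ℕ → M → ℝ)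
    (hy : ∀ i, ContMDiff (𝓡 n) 𝓘(ℝ, ℝ) ∞ (y i)) (S : Set M) (hS : TwoNull n S)
    (hgood : ∀ x ∉ S, GoodAt g y x) :
    ∃ g' : Metric (𝓡 n) M, IsConformal g g' ∧ HasPositiveSectionalCurvature g' := by
  have : Nonempty (Fin n) := ⟨⟨0, by omega⟩⟩
  have : Nontrivial (EuclideanSpace ℝ (Fin n)) := inferInstance
  obtain ⟨cov, hc⟩ := exists_LC g
  obtain ⟨R, hR⟩ := exists_riemann_of_LC hc
  have hgood' : ∀ x ∉ S, ∀ u v : TangentSpace (𝓡 n) x, LinearIndependent ℝ ![u, v] →
      0 < sectionalCurvature g R x u v ∨
        (sectionalCurvature g R x u v = 0 ∧ ∃ i, Transversal (y i) x u v) := by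
    intro x hx u v huv
    obtain ⟨cov', R', hc', hR', h⟩ := hgood x hx
    have := h u v huv
    unfold sectionalCurvature at this ⊢
    rwa [riemann_unique hc' hc hR' hR] at this
  -- the curvature is nonnegative
  have hnn : ∀ (x : M) (u v : TangentSpace (𝓡 n) x), OrthoPair g x u v → 0 ≤ sec g R x u v := by
    intro x u v huv
    by_contra hneg
    push Not at hneg
    obtain ⟨O, hO1, hO2, hxO⟩ := eventually_nhds_iff.1 (neg_nhds hc hR (ortho_li huv) hneg)
    have hOS : O ⊆ S := by
      intro z hz
      by_contra hzS
      obtain ⟨u', v', hli, h'⟩ := hO1 z hz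
      have h1 : 0 ≤ sectionalCurvature g R z u' v' := by
        rcases hgood' z hzS u' v' hli with h | ⟨h, -⟩
        · exact h.le
        · exact h.ge
      have hden : 0 < g.inner z u' u' * g.inner z v' v' - g.inner z u' v' ^ 2 := by
        have hu : u' ≠ 0 := by simpa using hli.ne_zero 0
        have huu := g.pos z u' hu
        have hw0 : v' - (g.inner z u' v' / g.inner z u' u') • u' ≠ 0 := by
          intro hh
          rw [sub_eq_zero] at hh
          rw [LinearIndependent.pair_iff] at hli
          have := hli (g.inner z u' v' / g.inner z u' u') (-1) (by rw [← hh]; simp)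
          norm_num at this
        have hww := g.pos z _ hw0
        have e : g.inner z (v' - (g.inner z u' v' / g.inner z u' u') • u')
            (v' - (g.inner z u' v' / g.inner z u' u') • u') =
            (g.inner z u' u' * g.inner z v' v' - g.inner z u' v' ^ 2) / g.inner z u' u' := by
          rw [in_sub_left]
          simp only [map_sub, map_smul, smul_apply, smul_eq_mul]
          rw [g.symm z v' u']
          field_simp
          ring
        rw [e] at hww
        exact (div_pos_iff_of_pos_right huu).1 hww
      unfold sectionalCurvature at h1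
      have h2 := mul_nonneg h1 hden.le
      rw [div_mul_cancel₀ _ hden.ne'] at h2
      linarith
    have := null_interior hn hS hO2 hOS
    rw [this] at hxO
    exact hxO
  obtain ⟨f, hf, hres⟩ := conf_of_transverse hc hR hnn hS hy (by
    intro x u v hx huv h0
    have h1 : sectionalCurvature g R x u v = 0 := by
      unfold sectionalCurvature
      unfold sec at h0
      rw [h0, zero_div]
    rcases hgood' x hx u v (ortho_li huv) with h | ⟨-, i, hi⟩
    · rw [h1] at h
      exact absurd h (lt_irrefl _)
    · exact ⟨i, hi.1, hi.2⟩)
  exact ⟨conf g f hf, ⟨f, hf, fun x u v => rfl⟩, hres⟩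

end Pool.Agent.Results.MP_4e0d62_gt.TransverseFlats
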